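import Mathlib

set_option autoImplicit false

/-!
# Van der Waerden and Brauer type statements in finite form
-/

namespace Pool.Agent.H142R3.Brauer

/-- Finite van der Waerden theorem, colours from a finite set of natural numbers. -/
theorem vdw (L r : ℕ) : ∃ M : ℕ, ∀ (c : ℕ → ℕ) (S : Finset ℕ), S.card ≤ r →
    (∀ n, 1 ≤ n → n ≤ M → c n ∈ S) →
    ∃ a d : ℕ, 0 < a ∧ 0 < d ∧ a + L * d ≤ M ∧ ∀ i ≤ L, c (a + i * d) = c a := by
  obtain ⟨ι, hι, h⟩ := Combinatorics.Line.exists_mono_in_high_dimension (Fin (L + 1)) (Fin (r + 1))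
  refine ⟨1 + L * Fintype.card ι, ?_⟩
  intro c S hS hc
  -- index of a colour
  let g : ℕ → Fin (r + 1) := fun x =>
    ⟨(S.filter (· < x)).card, Nat.lt_succ_of_le ((Finset.card_filter_le _ _).trans hS)⟩
  have ginj : ∀ x ∈ S, ∀ y ∈ S, g x = g y → x = y := by
    have key : ∀ x ∈ S, ∀ y ∈ S, x < y → g x ≠ g y := by
      intro x hx y hy hxy he
      have h1 : (S.filter (· < x)).card = (S.filter (· < y)).card := by
        have := congrArg Fin.val he
        exact this
      have h2 : (S.filter (· < x)) ⊂ (S.filter (· < y)) := by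
        refine ⟨?_, ?_⟩
        · intro w hw
          simp only [Finset.mem_filter] at hw ⊢
          exact ⟨hw.1, hw.2.trans hxy⟩
        · intro hsub
          have : x ∈ S.filter (· < x) := hsub (by simp [hx, hxy])
          simp at this
      have := Finset.card_lt_card h2
      omega
    intro x hx y hy he
    rcases lt_trichotomy x y with hlt | heq | hgt
    · exact absurd he (key x hx y hy hlt)
    · exact heq
    · exact absurd he.symm (key y hy x hx hgt)
  obtain ⟨l, col, hl⟩ := h (fun v => g (c (1 + ∑ i, (v i : ℕ))))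
  classical
  let a : ℕ := 1 + ∑ i, ((l 0) i : ℕ)
  let act : Finset ι := Finset.univ.filter (fun i => l.idxFun i = none)
  have hact : 0 < act.card := by
    obtain ⟨i, hi⟩ := l.proper
    exact Finset.card_pos.mpr ⟨i, by simp [act, hi]⟩
  have hval : ∀ t : Fin (L + 1), 1 + ∑ i, ((l t) i : ℕ) = a + (t : ℕ) * act.card := by
    intro t
    have h1 : ∀ i, ((l t) i : ℕ) = ((l 0) i : ℕ) + (if l.idxFun i = none then (t : ℕ) else 0) := by
      intro i
      by_cases hi : l.idxFun i = none
      · simp [Combinatorics.Line.apply_def, hi]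
      · obtain ⟨w, hw⟩ := Option.ne_none_iff_exists'.mp hi
        simp [Combinatorics.Line.apply_def, hw]
    simp only [h1, Finset.sum_add_distrib, a]
    rw [← Finset.sum_filter]
    simp only [Finset.sum_const, smul_eq_mul, act]
    ring
  have hbound : ∀ t : Fin (L + 1), 1 + ∑ i, ((l t) i : ℕ) ≤ 1 + L * Fintype.card ι := by
    intro t
    have : ∑ i, ((l t) i : ℕ) ≤ ∑ _i : ι, L :=
      Finset.sum_le_sum (fun i _ => Nat.le_of_lt_succ ((l t) i).2)
    simp only [Finset.sum_const, Finset.card_univ, smul_eq_mul] at this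
    linarith [Nat.mul_comm L (Fintype.card ι)]
  have hmem : ∀ t : Fin (L + 1), c (a + (t : ℕ) * act.card) ∈ S := by
    intro t
    rw [← hval t]
    exact hc _ (by omega) (hbound t)
  refine ⟨a, act.card, by simp [a], hact, ?_, ?_⟩
  · have := hbound (Fin.last L)
    rw [hval] at this
    simpa using this
  · intro i hi
    have e1 := hl ⟨i, Nat.lt_succ_of_le hi⟩
    have e0 := hl 0
    simp only [hval] at e1 e0
    apply ginj _ (hmem ⟨i, Nat.lt_succ_of_le hi⟩) _ (by simpa using hmem 0)
    rw [e1]
    simpa using e0.symm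

/-- Brauer type theorem in finite form: arithmetic progression `a, a + d, …, a + k d` and the
multiple `s d` of the difference in one colour. -/
theorem brauer (k s : ℕ) (hs : 0 < s) (r : ℕ) : ∃ M : ℕ, ∀ (c : ℕ → ℕ) (S : Finset ℕ),
    S.card ≤ r → (∀ n, 1 ≤ n → n ≤ M → c n ∈ S) →
    ∃ a d : ℕ, 0 < a ∧ 0 < d ∧ a + k * d ≤ M ∧ s * d ≤ M ∧ c (s * d) = c a ∧
      ∀ i ≤ k, c (a + i * d) = c a := by
  induction r with
  | zero =>
    refine ⟨1, ?_⟩
    intro c S hS hc
    have : S = ∅ := Finset.card_eq_zero.mp (Nat.le_zero.mp hS)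
    have h1 := hc 1 le_rfl le_rfl
    rw [this] at h1
    simp at h1
  | succ r ih =>
    obtain ⟨M', hM'⟩ := ih
    obtain ⟨Mv, hMv⟩ := vdw (k * M') (r + 1)
    refine ⟨Mv + s * Mv * M', ?_⟩
    intro c S hS hc
    obtain ⟨a, d, ha, hd, had, hmono⟩ := hMv c S hS
      (fun n h1 h2 => hc n h1 (h2.trans (Nat.le_add_right _ _)))
    have hdM : d ≤ Mv ∨ k * M' = 0 := by
      rcases Nat.eq_zero_or_pos (k * M') with h | h
      · exact Or.inr h
      · left
        have : 1 * d ≤ k * M' * d := Nat.mul_le_mul_right _ h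
        omega
    -- we replace `d` by a difference bounded by `Mv`
    by_cases hdM2 : d ≤ Mv
    · by_cases hex : ∃ j, 1 ≤ j ∧ j ≤ M' ∧ c (s * (d * j)) = c a
      · obtain ⟨j, hj1, hj2, hj3⟩ := hex
        have hkj : k * (d * j) ≤ k * M' * d := by
          calc k * (d * j) = k * j * d := by ring
            _ ≤ k * M' * d := Nat.mul_le_mul_right _ (Nat.mul_le_mul_left _ hj2)
        refine ⟨a, d * j, ha, Nat.mul_pos hd hj1, ?_, ?_, hj3, ?_⟩
        · omega
        · calc s * (d * j) ≤ s * (Mv * M') := Nat.mul_le_mul_left _ (Nat.mul_le_mul hdM2 hj2)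
            _ = s * Mv * M' := by ring
            _ ≤ _ := Nat.le_add_left _ _
        · intro i hi
          have h1 : a + i * (d * j) = a + (i * j) * d := by ring
          rw [h1]
          exact hmono _ (Nat.mul_le_mul hi hj2)
      · push Not at hex
        have hsub : ∀ n, 1 ≤ n → n ≤ M' → c (s * (d * n)) ∈ S.erase (c a) := by
          intro n h1 h2
          refine Finset.mem_erase.mpr ⟨hex n h1 h2, ?_⟩
          apply hc
          · exact Nat.mul_pos hs (Nat.mul_pos hd h1)
          · calc s * (d * n) ≤ s * (Mv * M') := Nat.mul_le_mul_left _ (Nat.mul_le_mul hdM2 h2)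
              _ = s * Mv * M' := by ring
              _ ≤ _ := Nat.le_add_left _ _
        have haS : c a ∈ S := hc a ha (by omega)
        have hcard : (S.erase (c a)).card ≤ r := by
          rw [Finset.card_erase_of_mem haS]
          omega
        obtain ⟨a', d', ha', hd', had', hsd', hc1, hc2⟩ :=
          hM' (fun n => c (s * (d * n))) (S.erase (c a)) hcard hsub
        refine ⟨s * (d * a'), s * (d * d'), Nat.mul_pos hs (Nat.mul_pos hd ha'),
          Nat.mul_pos hs (Nat.mul_pos hd hd'), ?_, ?_, ?_, ?_⟩
        · calc s * (d * a') + k * (s * (d * d')) = s * (d * (a' + k * d')) := by ring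
            _ ≤ s * (Mv * M') := Nat.mul_le_mul_left _ (Nat.mul_le_mul hdM2 had')
            _ = s * Mv * M' := by ring
            _ ≤ _ := Nat.le_add_left _ _
        · calc s * (s * (d * d')) = s * (d * (s * d')) := by ring
            _ ≤ s * (Mv * M') := Nat.mul_le_mul_left _ (Nat.mul_le_mul hdM2 hsd')
            _ = s * Mv * M' := by ring
            _ ≤ _ := Nat.le_add_left _ _
        · have : s * (s * (d * d')) = s * (d * (s * d')) := by ring
          rw [this]
          exact hc1
        · intro i hi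
          have : s * (d * a') + i * (s * (d * d')) = s * (d * (a' + i * d')) := by ring
          rw [this]
          exact hc2 i hi
    · -- degenerate case `k * M' = 0`
      rcases hdM with h | h
      · exact absurd h hdM2
      · rcases Nat.mul_eq_zero.mp h with hk | hM0
        · -- `k = 0`: take `d = 1`, and `a = s`
          subst hk
          have hMv1 : 1 ≤ Mv := by omega
          by_cases hM'0 : M' = 0
          · exfalso
            obtain ⟨a', d', ha', hd', had', -, -, -⟩ := hM' (fun _ => 0) ∅ (by simp)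
              (fun n h1 h2 => by omega)
            omega
          · have hM'1 : 1 ≤ M' := Nat.one_le_iff_ne_zero.mpr hM'0
            have : s * 1 * 1 ≤ s * Mv * M' := Nat.mul_le_mul (Nat.mul_le_mul_left _ hMv1) hM'1
            refine ⟨s, 1, hs, one_pos, by omega, by omega, by simp, ?_⟩
            intro i hi
            have : i = 0 := by omega
            subst this
            simp
        · exfalso
          obtain ⟨a', d', ha', hd', had', -, -, -⟩ := hM' (fun _ => 0) ∅ (by simp)
            (fun n h1 h2 => by omega)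
          omega

/-- Infinite form with colours in `Fin r`. -/
theorem brauer_fin (k s : ℕ) (hs : 0 < s) {r : ℕ} (c : ℕ → Fin r) :
    ∃ a d : ℕ, 0 < a ∧ 0 < d ∧ c (s * d) = c a ∧ ∀ i ≤ k, c (a + i * d) = c a := by
  obtain ⟨M, hM⟩ := brauer k s hs r
  obtain ⟨a, d, ha, hd, -, -, h1, h2⟩ := hM (fun n => (c n : ℕ)) (Finset.range r) (by simp)
    (fun n _ _ => by simp)
  exact ⟨a, d, ha, hd, Fin.ext h1, fun i hi => Fin.ext (h2 i hi)⟩

end Pool.Agent.H142R3.Brauer
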