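import Pool.Agent.H384R3.SPk.Defs

set_option autoImplicit false

/-! Task B of the project SPK384 (helper384): contractivity of the conditional expectation. -/

namespace Pool.Agent.H142R3.SPkB

open Finset Pool.Agent.H384R3.SPk

theorem F_add (g f : ℤ →₀ ℝ) (x : ℝ) : F (g + f) x = F g x + F f x := by
  unfold F
  rw [Finsupp.sum_add_index']
  · intro n; simp
  · intro n a b; push_cast; ring

theorem F_eq_sum (f : ℤ →₀ ℝ) (x : ℝ) :
    F f x = ∑ n ∈ f.support, ((f n : ℝ) : ℂ) * Complex.exp (2 * Real.pi * Complex.I * n * x) := rfl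

theorem F_cont (f : ℤ →₀ ℝ) : Continuous (F f) := by
  have : F f = fun x : ℝ => ∑ n ∈ f.support,
      ((f n : ℝ) : ℂ) * Complex.exp (2 * Real.pi * Complex.I * n * x) := by
    funext x; rfl
  rw [this]
  fun_prop

theorem F_periodic (f : ℤ →₀ ℝ) : Function.Periodic (F f) 1 := by
  intro x
  rw [F_eq_sum, F_eq_sum]
  refine Finset.sum_congr rfl fun n _ => ?_
  congr 1
  have : (2 * Real.pi * Complex.I * n * ((x + 1 : ℝ) : ℂ)) =
      2 * Real.pi * Complex.I * n * x + n * (2 * Real.pi * Complex.I) := by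
    push_cast; ring
  rw [this, Complex.exp_add, Complex.exp_int_mul_two_pi_mul_I, mul_one]

theorem F_shift_dvd (m : ℕ) (hm : 1 ≤ m) (g : ℤ →₀ ℝ) (hg : ∀ n ∈ g.support, (m : ℤ) ∣ n)
    (x : ℝ) (j : ℕ) : F g (x + j / m) = F g x := by
  rw [F_eq_sum, F_eq_sum]
  refine Finset.sum_congr rfl fun n hn => ?_
  congr 1
  obtain ⟨q, hq⟩ := hg n hn
  have hm0 : (m : ℂ) ≠ 0 := by
    have : m ≠ 0 := by omega
    exact_mod_cast this
  have : (2 * Real.pi * Complex.I * n * ((x + j / m : ℝ) : ℂ)) =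
      2 * Real.pi * Complex.I * n * x + ((q * j : ℤ) : ℂ) * (2 * Real.pi * Complex.I) := by
    rw [hq]
    push_cast
    field_simp
  rw [this, Complex.exp_add, Complex.exp_int_mul_two_pi_mul_I, mul_one]

theorem geom_zero (m : ℕ) (hm : 1 ≤ m) (n : ℤ) (hn : ¬ (m : ℤ) ∣ n) :
    ∑ j ∈ Finset.range m, Complex.exp (2 * Real.pi * Complex.I * n * ((j / m : ℝ) : ℂ)) = 0 := by
  have hm0 : (m : ℂ) ≠ 0 := by
    have : m ≠ 0 := by omega
    exact_mod_cast this
  set ζ : ℂ := Complex.exp (2 * Real.pi * Complex.I * n / m) with hζ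
  have h1 : ∀ j ∈ Finset.range m,
      Complex.exp (2 * Real.pi * Complex.I * n * ((j / m : ℝ) : ℂ)) = ζ ^ j := by
    intro j _
    rw [hζ, ← Complex.exp_nat_mul]
    congr 1
    push_cast
    ring
  rw [Finset.sum_congr rfl h1]
  have hζm : ζ ^ m = 1 := by
    rw [hζ, ← Complex.exp_nat_mul]
    have : (m : ℂ) * (2 * Real.pi * Complex.I * n / m) = n * (2 * Real.pi * Complex.I) := by
      field_simp
    rw [this, Complex.exp_int_mul_two_pi_mul_I]
  have hζ1 : ζ ≠ 1 := by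
    intro h
    rw [hζ, Complex.exp_eq_one_iff] at h
    obtain ⟨k, hk⟩ := h
    apply hn
    refine ⟨k, ?_⟩
    have hpi : (2 * Real.pi * Complex.I : ℂ) ≠ 0 := Complex.two_pi_I_ne_zero
    have h2 : (n : ℂ) = m * k := by
      have h3 : (2 * Real.pi * Complex.I : ℂ) * n = (2 * Real.pi * Complex.I) * (m * k) := by
        field_simp at hk
        calc (2 * Real.pi * Complex.I : ℂ) * n = 2 * Real.pi * Complex.I * n := by ring
          _ = (2 * Real.pi * Complex.I) * (m * k) := by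
            rw [hk]
      exact mul_left_cancel₀ hpi h3
    exact_mod_cast h2
  have h4 := geom_sum_mul ζ m
  rw [hζm, sub_self] at h4
  exact (mul_eq_zero.1 h4).resolve_right (sub_ne_zero.2 hζ1)

theorem F_sum_shift (m : ℕ) (hm : 1 ≤ m) (f : ℤ →₀ ℝ) (hf : ∀ n ∈ f.support, ¬ (m : ℤ) ∣ n)
    (x : ℝ) : ∑ j ∈ Finset.range m, F f (x + j / m) = 0 := by
  simp_rw [F_eq_sum]
  rw [Finset.sum_comm]
  refine Finset.sum_eq_zero fun n hn => ?_
  have h1 : ∀ j ∈ Finset.range m,
      ((f n : ℝ) : ℂ) * Complex.exp (2 * Real.pi * Complex.I * n * ((x + j / m : ℝ) : ℂ)) =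
      (((f n : ℝ) : ℂ) * Complex.exp (2 * Real.pi * Complex.I * n * x)) *
        Complex.exp (2 * Real.pi * Complex.I * n * ((j / m : ℝ) : ℂ)) := by
    intro j _
    have h2 : (2 * Real.pi * Complex.I * n * ((x + j / m : ℝ) : ℂ)) =
        2 * Real.pi * Complex.I * n * x +
          2 * Real.pi * Complex.I * n * ((j / m : ℝ) : ℂ) := by
      push_cast
      ring
    rw [h2, Complex.exp_add]
    ring
  rw [Finset.sum_congr rfl h1, ← Finset.mul_sum, geom_zero m hm n (hf n hn), mul_zero]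

theorem avg (m : ℕ) (hm : 1 ≤ m) (g f : ℤ →₀ ℝ) (hg : ∀ n ∈ g.support, (m : ℤ) ∣ n)
    (hf : ∀ n ∈ f.support, ¬ (m : ℤ) ∣ n) (x : ℝ) :
    (m : ℂ) * F g x = ∑ j ∈ Finset.range m, F (g + f) (x + j / m) := by
  simp_rw [F_add]
  rw [Finset.sum_add_distrib, F_sum_shift m hm f hf x, add_zero,
    Finset.sum_congr rfl (fun j _ => F_shift_dvd m hm g hg x j)]
  simp

theorem pointwise (k m : ℕ) (hm : 1 ≤ m) (g f : ℤ →₀ ℝ)
    (hg : ∀ n ∈ g.support, (m : ℤ) ∣ n) (hf : ∀ n ∈ f.support, ¬ (m : ℤ) ∣ n) (x : ℝ) :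
    ‖F g x‖ ^ (2 * k) ≤
      ∑ j ∈ Finset.range m, (1 / m : ℝ) * ‖F (g + f) (x + j / m)‖ ^ (2 * k) := by
  have hm0 : (0 : ℝ) < m := by exact_mod_cast hm
  have h1 : ‖F g x‖ ≤ ∑ j ∈ Finset.range m, (1 / m : ℝ) * ‖F (g + f) (x + j / m)‖ := by
    have h2 : (m : ℝ) * ‖F g x‖ ≤ ∑ j ∈ Finset.range m, ‖F (g + f) (x + j / m)‖ := by
      calc (m : ℝ) * ‖F g x‖ = ‖(m : ℂ) * F g x‖ := by simp
        _ = ‖∑ j ∈ Finset.range m, F (g + f) (x + j / m)‖ := by rw [avg m hm g f hg hf x]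
        _ ≤ _ := norm_sum_le _ _
    rw [← Finset.mul_sum, one_div, ← div_eq_inv_mul, le_div_iff₀ hm0]
    linarith
  calc ‖F g x‖ ^ (2 * k)
      ≤ (∑ j ∈ Finset.range m, (1 / m : ℝ) * ‖F (g + f) (x + j / m)‖) ^ (2 * k) :=
        pow_le_pow_left₀ (norm_nonneg _) h1 _
    _ ≤ _ := by
        apply Real.pow_arith_mean_le_arith_mean_pow
        · intro i _; positivity
        · simp; field_simp
        · intro i _; positivity

theorem M_nonneg (k : ℕ) (f : ℤ →₀ ℝ) : 0 ≤ M k f :=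
  intervalIntegral.integral_nonneg (by norm_num) fun x _ => by positivity

theorem M_le (k m : ℕ) (hm : 1 ≤ m) (g f : ℤ →₀ ℝ)
    (hg : ∀ n ∈ g.support, (m : ℤ) ∣ n) (hf : ∀ n ∈ f.support, ¬ (m : ℤ) ∣ n) :
    M k g ≤ M k (g + f) := by
  have hm0 : (0 : ℝ) < m := by exact_mod_cast hm
  have hcont : ∀ (h : ℤ →₀ ℝ) (c : ℝ), Continuous fun x : ℝ => ‖F h (x + c)‖ ^ (2 * k) := by
    intro h c
    exact (((F_cont h).comp (continuous_id.add continuous_const)).norm).pow _
  have hshift : ∀ c : ℝ, ∫ x in (0:ℝ)..1, ‖F (g + f) (x + c)‖ ^ (2 * k) = M k (g + f) := by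
    intro c
    have hper : Function.Periodic (fun x : ℝ => ‖F (g + f) x‖ ^ (2 * k)) 1 := by
      intro x
      simp only [F_periodic (g + f) x]
    rw [intervalIntegral.integral_comp_add_right (fun x : ℝ => ‖F (g + f) x‖ ^ (2 * k)) c]
    have h := hper.intervalIntegral_add_eq c 0
    unfold M
    have e1 : (0 : ℝ) + c = c := by ring
    have e2 : (1 : ℝ) + c = c + 1 := by ring
    have e3 : (0 : ℝ) + 1 = 1 := by ring
    rw [e1, e2, h, e3]
  calc M k g ≤ ∫ x in (0:ℝ)..1,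
        ∑ j ∈ Finset.range m, (1 / m : ℝ) * ‖F (g + f) (x + j / m)‖ ^ (2 * k) := by
        apply intervalIntegral.integral_mono_on (by norm_num)
        · exact (((F_cont g).norm).pow _).intervalIntegrable _ _
        · apply Continuous.intervalIntegrable
          exact continuous_finsetSum _ fun j _ => continuous_const.mul (hcont (g + f) _)
        · intro x _
          exact pointwise k m hm g f hg hf x
    _ = ∑ j ∈ Finset.range m, (1 / m : ℝ) * M k (g + f) := by
        rw [intervalIntegral.integral_finsetSum]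
        · refine Finset.sum_congr rfl fun j _ => ?_
          rw [intervalIntegral.integral_const_mul, hshift]
        · intro j _
          exact (continuous_const.mul (hcont (g + f) _)).intervalIntegrable _ _
    _ = M k (g + f) := by
        simp
        field_simp

theorem taskB : Pool.Agent.H384R3.SPk.TaskB := by
  intro k m _ hm g f hg hf
  unfold N
  exact Real.rpow_le_rpow (M_nonneg k g) (M_le k m hm g f hg hf) (by positivity)

end Pool.Agent.H142R3.SPkB
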