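import Pool.Agent.H387R3.ZT.Stmts2
import Pool.Agent.H525R3.FFp.Riemann

/-! Task ZT-Low of project ZT (helper387): lower bound for the number of effective divisors. -/

set_option autoImplicit false
set_option linter.all false
set_option linter.overlappingInstances false

open Module FF

namespace Pool.Agent.H142R3.ZTLow

open Pool.Agent.H525R3.FFp

section

variable {k K : Type*} [Field k] [Finite k] [Field K] [Algebra k K] [IsFF k K]

theorem red_pow_card (P : Place k K) (m : ℕ) (hm : P.deg ≤ m) (y : P.RF) :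
    y ^ (Nat.card k ^ m.factorial) = y := by
  have hfin : Finite P.RF := Module.finite_of_finite k
  have : Fintype P.RF := Fintype.ofFinite _
  have h2 : Nat.card P.RF = Nat.card k ^ P.deg := Module.natCard_eq_pow_finrank
  obtain ⟨j, hj⟩ := Nat.dvd_factorial (deg_pos P) hm
  have h4 := FiniteField.pow_card_pow j y
  rwa [← Nat.card_eq_fintype_card, h2, ← pow_mul, ← hj] at h4

theorem finite_deg_le (m : ℕ) : {P : Place k K | P.deg ≤ m}.Finite := by
  obtain ⟨x, hx⟩ := exists_D_ne k K
  have hxt := (sep_of_D_ne hx).1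
  have hx0 : x ≠ 0 := by
    rintro rfl; exact hx (map_zero _)
  set N := Nat.card k ^ m.factorial with hN
  have hq : 1 < Nat.card k := Finite.one_lt_card
  have hN1 : 1 < N := Nat.one_lt_pow (Nat.factorial_ne_zero m) hq
  have hne : ∀ y : K, Transcendental k y → y ^ N - y ≠ 0 := by
    intro y hy h
    apply hy
    refine ⟨Polynomial.X ^ N - Polynomial.X, ?_, by simpa using h⟩
    exact FiniteField.X_pow_card_sub_X_ne_zero k hN1
  have hxt' : Transcendental k x⁻¹ := by
    intro h
    apply hxt
    have := h.inv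
    rwa [inv_inv] at this
  refine ((finite_support (k := k) (x ^ N - x)).union
    (finite_support (k := k) (x⁻¹ ^ N - x⁻¹))).subset ?_
  intro P hP
  have key : ∀ y : K, Transcendental k y → P.Reg y → P.ord (y ^ N - y) ≠ 0 := by
    intro y hy hr
    have h1 : P.Reg (y ^ N) := by
      by_cases hy0 : y = 0
      · subst hy0
        rw [zero_pow (by omega)]
        exact P.reg_zero
      · right
        rw [P.ord_pow]
        have := (P.reg_iff hy0).1 hr
        positivity
    have h2 : P.red (y ^ N - y) = 0 := by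
      rw [P.red_sub h1 hr, P.red_pow hr, red_pow_card P m hP, sub_self]
    have h3 : P.Reg (y ^ N - y) := by
      rw [sub_eq_add_neg]; exact P.reg_add h1 (P.reg_neg hr)
    rw [P.red_eq_zero_iff h3] at h2
    have := h2.resolve_left (hne y hy)
    omega
  rcases le_or_gt 0 (P.ord x) with h | h
  · left
    exact key x hxt (Or.inr h)
  · right
    exact key x⁻¹ hxt' (Or.inr (by rw [P.ord_inv]; omega))

theorem finite_eff (m : ℕ) :
    Finite {D : Place k K →₀ ℕ // (D.sum fun v n => n * v.deg) = m} := by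
  classical
  have hS := finite_deg_le (k := k) (K := K) m
  let Dmax : Place k K →₀ ℕ := Finsupp.indicator hS.toFinset (fun _ _ => m)
  have h1 : {D : Place k K →₀ ℕ | (D.sum fun v n => n * v.deg) = m} ⊆ Set.Iic Dmax := by
    intro D hD
    rw [Set.mem_Iic]
    intro v
    by_cases hv : D v = 0
    · rw [hv]; exact Nat.zero_le _
    have hvs : v ∈ D.support := Finsupp.mem_support_iff.2 hv
    have h2 : D v * v.deg ≤ m := by
      have h3 : D v * v.deg ≤ D.sum fun v n => n * v.deg :=
        Finset.single_le_sum (f := fun v => D v * v.deg) (fun _ _ => Nat.zero_le _) hvs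
      have h4 : (D.sum fun v n => n * v.deg) = m := hD
      omega
    have hd := deg_pos v
    have h3 : v.deg ≤ m := by nlinarith [Nat.pos_of_ne_zero hv]
    have h4 : D v ≤ m := by nlinarith
    have h5 : Dmax v = m := by
      simp only [Dmax]
      rw [Finsupp.indicator_of_mem]
      rw [Set.Finite.mem_toFinset]
      exact h3
    rw [h5]
    exact h4
  exact ((Set.finite_Iic Dmax).subset h1)

/-- the effective divisor of a nonzero element of `LL D` -/
noncomputable def effOf (D : Place k K →₀ ℤ) (f : K) : Place k K →₀ ℕ :=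
  (divisor k f + D).mapRange Int.toNat rfl

theorem effOf_cast {D : Place k K →₀ ℤ} {f : K} (hf : f ≠ 0) (h : f ∈ LL D) (v : Place k K) :
    ((effOf D f v : ℕ) : ℤ) = v.ord f + D v := by
  rw [mem_LL' hf] at h
  have := h v
  simp only [Finsupp.coe_zero, Pi.zero_apply, Finsupp.coe_add, Pi.add_apply, divisor_apply] at this
  unfold effOf
  rw [Finsupp.mapRange_apply, Finsupp.add_apply, divisor_apply]
  omega

theorem effOf_sum {D : Place k K →₀ ℤ} {f : K} (hf : f ≠ 0) (h : f ∈ LL D) :
    (((effOf D f).sum fun v n => n * v.deg : ℕ) : ℤ) = ddeg D := by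
  have h1 : (((effOf D f).sum fun v n => n * v.deg : ℕ) : ℤ) = ddeg (nd (effOf D f)) := by
    unfold ddeg nd
    rw [Finsupp.mapRange.addMonoidHom_apply, Finsupp.sum_mapRange_index (by intro; simp)]
    unfold Finsupp.sum
    push_cast
    rfl
  have h2 : nd (effOf D f) = divisor k f + D := by
    ext v
    have h3 : nd (effOf D f) v = ((effOf D f v : ℕ) : ℤ) := rfl
    rw [h3, effOf_cast hf h, Finsupp.add_apply, divisor_apply]
  rw [h1, h2, ddeg_add, ddeg_divisor, zero_add]

theorem div_mem {D : Place k K →₀ ℤ} {f g : K} (hf : f ≠ 0) (hg : g ≠ 0) (h1 : f ∈ LL D)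
    (h2 : g ∈ LL D) (h : effOf D f = effOf D g) : f / g ∈ LL (0 : Place k K →₀ ℤ) := by
  right
  intro P
  have h3 := effOf_cast hf h1 P
  have h4 := effOf_cast hg h2 P
  rw [h] at h3
  rw [P.ord_div hf hg]
  simp only [Finsupp.coe_zero, Pi.zero_apply]
  omega

theorem card_le (D : Place k K →₀ ℤ) (m : ℕ) (hD : ddeg D = m) :
    Nat.card (LL D) ≤ Nat.card {E : Place k K →₀ ℕ // (E.sum fun v n => n * v.deg) = m} *
      Nat.card (LL (0 : Place k K →₀ ℤ)) + 1 := by
  classical
  have hfE : Finite {E : Place k K →₀ ℕ // (E.sum fun v n => n * v.deg) = m} := finite_eff m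
  have hf0 : Finite (LL (0 : Place k K →₀ ℤ)) := Module.finite_of_finite k
  have hfD : Finite (LL D) := Module.finite_of_finite k
  have hsum : ∀ f : LL D, f.1 ≠ 0 → ((effOf D f.1).sum fun v n => n * v.deg) = m := by
    intro f hf
    have := effOf_sum hf f.2
    rw [hD] at this
    exact_mod_cast this
  let T := {E : Place k K →₀ ℕ // (E.sum fun v n => n * v.deg) = m}
  let ch : T → K := fun E => if h : ∃ g : LL D, g.1 ≠ 0 ∧ effOf D g.1 = E.1 then h.choose.1 else 1
  have hch : ∀ f : LL D, ∀ hf : f.1 ≠ 0, (ch ⟨_, hsum f hf⟩) ≠ 0 ∧ ch ⟨_, hsum f hf⟩ ∈ LL D ∧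
      effOf D (ch ⟨_, hsum f hf⟩) = effOf D f.1 := by
    intro f hf
    have h : ∃ g : LL D, g.1 ≠ 0 ∧ effOf D g.1 = effOf D f.1 := ⟨f, hf, rfl⟩
    have h1 : ch ⟨_, hsum f hf⟩ = h.choose.1 := by
      simp only [ch]
      rw [dif_pos h]
    rw [h1]
    exact ⟨h.choose_spec.1, h.choose.2, h.choose_spec.2⟩
  let ψ : LL D → Option (T × LL (0 : Place k K →₀ ℤ)) := fun f =>
    if hf : f.1 = 0 then none else
      some (⟨_, hsum f hf⟩, ⟨f.1 / ch ⟨_, hsum f hf⟩,
        div_mem hf (hch f hf).1 f.2 (hch f hf).2.1 (hch f hf).2.2.symm⟩)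
  have hψ : Function.Injective ψ := by
    intro f g hfg
    by_cases hf : f.1 = 0
    · by_cases hg : g.1 = 0
      · exact Subtype.ext (hf.trans hg.symm)
      · simp only [ψ] at hfg
        rw [dif_pos hf, dif_neg hg] at hfg
        exact absurd hfg (by simp)
    · by_cases hg : g.1 = 0
      · simp only [ψ] at hfg
        rw [dif_neg hf, dif_pos hg] at hfg
        exact absurd hfg (by simp)
      · simp only [ψ] at hfg
        rw [dif_neg hf, dif_neg hg] at hfg
        have h1 := Option.some.inj hfg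
        have h2 := (Prod.mk.inj h1).1
        have h3 := congrArg Subtype.val (Prod.mk.inj h1).2
        simp only at h3
        have h4 : ch ⟨_, hsum f hf⟩ = ch ⟨_, hsum g hg⟩ := congrArg ch h2
        rw [h4] at h3
        apply Subtype.ext
        exact (div_left_inj' (hch g hg).1).1 h3
  have h1 := Nat.card_le_card_of_injective ψ hψ
  have : Fintype (T × LL (0 : Place k K →₀ ℤ)) := Fintype.ofFinite _
  rw [Nat.card_eq_fintype_card (α := Option (T × LL (0 : Place k K →₀ ℤ))), Fintype.card_option,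
    ← Nat.card_eq_fintype_card, Nat.card_prod] at h1
  exact h1

end

theorem taskLow : Pool.Agent.H387R3.ZT.TaskLow := by
  intro k F _ _ _ _ _
  obtain ⟨γ, N, hγ, -⟩ := riemann k F
  obtain ⟨v0, -⟩ := exists_place (k := k) (K := F)
  have hq : 1 < Nat.card k := Finite.one_lt_card
  have hd0 := deg_pos v0
  set C0 := Nat.card (LL (0 : Place k F →₀ ℤ)) with hC0
  refine ⟨v0.deg, Nat.card k ^ γ.toNat * (C0 + 1), γ.toNat + 1, hd0, ?_⟩
  intro j hj
  have hdeg : ddeg (Finsupp.single v0 (j : ℤ)) = ((v0.deg * j : ℕ) : ℤ) := by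
    rw [ddeg_single]; push_cast; ring
  have hcard := card_le (Finsupp.single v0 (j : ℤ)) (v0.deg * j) hdeg
  have hell := hγ (Finsupp.single v0 (j : ℤ))
  rw [hdeg] at hell
  have hLL : Nat.card (LL (Finsupp.single v0 (j : ℤ))) =
      Nat.card k ^ finrank k (LL (Finsupp.single v0 (j : ℤ))) := Module.natCard_eq_pow_finrank
  unfold ell at hell
  set e := finrank k (LL (Finsupp.single v0 (j : ℤ))) with he
  rw [hLL] at hcard
  have hdj : j ≤ v0.deg * j := Nat.le_mul_of_pos_left _ hd0
  have h1 : v0.deg * j ≤ γ.toNat + e := by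
    have := Int.self_le_toNat γ
    omega
  have h2 : 1 ≤ e := by omega
  have h3 : 1 < Nat.card k ^ e := Nat.one_lt_pow (by omega) hq
  have hb : 1 ≤ Pool.Agent.H387R3.ZT.bnum k F (v0.deg * j) := by
    unfold Pool.Agent.H387R3.ZT.bnum
    by_contra hc
    have hc' : Nat.card {D : Place k F →₀ ℕ // (D.sum fun v n => n * v.deg) = v0.deg * j} = 0 := by
      omega
    rw [hc', zero_mul, zero_add] at hcard
    omega
  calc Nat.card k ^ (v0.deg * j) ≤ Nat.card k ^ (γ.toNat + e) :=
        Nat.pow_le_pow_right (by omega) h1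
    _ = Nat.card k ^ γ.toNat * Nat.card k ^ e := pow_add _ _ _
    _ ≤ Nat.card k ^ γ.toNat * (Pool.Agent.H387R3.ZT.bnum k F (v0.deg * j) * C0 + 1) :=
        Nat.mul_le_mul_left _ hcard
    _ ≤ Nat.card k ^ γ.toNat * (Pool.Agent.H387R3.ZT.bnum k F (v0.deg * j) * C0 +
          Pool.Agent.H387R3.ZT.bnum k F (v0.deg * j)) := by gcongr
    _ = _ := by ring

end Pool.Agent.H142R3.ZTLow
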